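import Mathlib
import Pool.Agent.X119.BP.Stm

/-! Part F2 of the project BP. -/

set_option autoImplicit false

namespace Pool.Agent.X295.BP

open Finset Polynomial

/-- the product `∏_{i<p, i≠c} (z + c - i)` -/
def P {R : Type*} [CommRing R] (p c : ℕ) (z : R) : R :=
  ∏ i ∈ range p, if i = c then 1 else (z + c - i)

theorem cast_P {R : Type*} [CommRing R] (p c : ℕ) (z : ℤ) : ((P p c z : ℤ) : R) = P p c (z : R) := by
  unfold P
  rw [Int.cast_prod]
  refine prod_congr rfl fun i _ => ?_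
  split_ifs <;> push_cast <;> ring

theorem prod_sub (p : ℕ) (h : ℕ) : ∏ i ∈ range p, ((h : ℤ) - i) = p.factorial * h.choose p := by
  rw [← descPochhammer_eval_eq_prod_range, descPochhammer_eval_eq_descFactorial,
    Nat.descFactorial_eq_factorial_mul_choose]
  push_cast
  ring

/-- `(p-1)! C(py+c,p) = y P_c(py)` -/
theorem fact_mul_choose {p c : ℕ} (hc : c < p) (y : ℕ) :
    ((p - 1).factorial : ℤ) * ((p * y + c).choose p : ℤ) = y * P p c ((p : ℤ) * y) := by
  have hp : p ≠ 0 := by omega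
  have h1 := prod_sub p (p * y + c)
  have h3 : (∏ i ∈ range p, if i = c then (p * y : ℤ) else 1) = (p * y : ℤ) := by
    rw [prod_ite_eq' (range p) c (fun _ => (p * y : ℤ)), if_pos (mem_range.2 hc)]
  have h2 : ∏ i ∈ range p, (((p * y + c : ℕ) : ℤ) - i) =
      (∏ i ∈ range p, if i = c then (p * y : ℤ) else 1) * P p c ((p : ℤ) * y) := by
    unfold P
    rw [← prod_mul_distrib]
    refine prod_congr rfl fun i _ => ?_
    split_ifs with hi
    · subst hi; push_cast; ring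
    · push_cast; ring
  rw [h3] at h2
  rw [h2] at h1
  have h4 : (p.factorial : ℤ) = p * (p - 1).factorial := by
    exact_mod_cast (Nat.mul_factorial_pred hp).symm
  rw [h4] at h1
  have hp' : (p : ℤ) ≠ 0 := by exact_mod_cast hp
  apply mul_left_cancel₀ hp'
  linear_combination -h1

/-- the reflection -/
theorem P_reflect {R : Type*} [CommRing R] {p c : ℕ} (hodd : Odd p) (hc : c < p) (z : R) :
    P p (p - 1 - c) (-z) = P p c z := by
  unfold P
  rw [← prod_range_reflect]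
  have h1 : ∀ j ∈ range p, (if p - 1 - j = p - 1 - c then (1 : R) else
      (-z + ((p - 1 - c : ℕ) : R) - ((p - 1 - j : ℕ) : R))) =
      (if j = c then (1 : R) else -1) * (if j = c then 1 else (z + c - j)) := by
    intro j hj
    rw [mem_range] at hj
    by_cases hjc : j = c
    · subst hjc; simp
    · have e1 : ((p - 1 - c : ℕ) : R) = p - 1 - c := by
        rw [Nat.cast_sub (by omega), Nat.cast_sub (by omega), Nat.cast_one]
      have e2 : ((p - 1 - j : ℕ) : R) = p - 1 - j := by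
        rw [Nat.cast_sub (by omega), Nat.cast_sub (by omega), Nat.cast_one]
      rw [if_neg (by omega), if_neg hjc, if_neg hjc, e1, e2]
      ring
  rw [prod_congr rfl h1, prod_mul_distrib]
  have h2 : ∏ j ∈ range p, (if j = c then (1 : R) else -1) = 1 := by
    rw [prod_ite, prod_const_one, one_mul, prod_const]
    have h3 : ((range p).filter fun j => ¬ j = c).card = p - 1 := by
      rw [filter_not, card_sdiff_of_subset (filter_subset _ _), card_range]
      have h4 : (range p).filter (fun j => j = c) = {c} := by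
        ext j
        simp only [mem_filter, mem_range, mem_singleton]
        constructor
        · exact fun h => h.2
        · rintro rfl; exact ⟨hc, rfl⟩
      rw [h4, card_singleton]
    rw [h3]
    apply Even.neg_one_pow
    obtain ⟨k, hk⟩ := hodd
    exact ⟨k, by omega⟩
  rw [h2, one_mul]

/-- the sum `F(z) = ∑_c (u P_c(z))^e` -/
def F {R : Type*} [CommRing R] (p e : ℕ) (u z : R) : R := ∑ c ∈ range p, (u * P p c z) ^ e

theorem F_neg {R : Type*} [CommRing R] {p : ℕ} (hodd : Odd p) (e : ℕ) (u z : R) :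
    F p e u (-z) = F p e u z := by
  unfold F
  rw [← sum_range_reflect]
  refine sum_congr rfl fun c hc => ?_
  rw [P_reflect hodd (mem_range.1 hc)]

theorem F_expand {R : Type*} [CommRing R] (p e : ℕ) (u : R) :
    ∃ (D : R → R) (a₂ a₁ : R), ∀ z, F p e u z = D z * z ^ 3 + a₂ * z ^ 2 + a₁ * z + F p e u 0 := by
  set W : R[X] := ∑ c ∈ range p, (C u * ∏ i ∈ range p, if i = c then 1 else (X + C (c : R) - C (i : R))) ^ e
    with hW
  have heval : ∀ z, W.eval z = F p e u z := by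
    intro z
    rw [hW, eval_finsetSum, F]
    refine sum_congr rfl fun c _ => ?_
    rw [eval_pow, eval_mul, eval_C, eval_prod, P]
    congr 2
    refine prod_congr rfl fun i _ => ?_
    split_ifs <;> simp
  refine ⟨fun z => W.divX.divX.divX.eval z, W.divX.divX.coeff 0, W.divX.coeff 0, fun z => ?_⟩
  have h0 : F p e u 0 = W.coeff 0 := by
    rw [← heval, coeff_zero_eq_eval_zero]
  rw [h0, ← heval]
  conv_lhs => rw [← divX_mul_X_add W, ← divX_mul_X_add W.divX, ← divX_mul_X_add W.divX.divX]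
  simp only [eval_add, eval_mul, eval_X, eval_C]
  ring

/-- splitting a sum over `range (p * n)` -/
theorem sum_split {M : Type*} [AddCommMonoid M] (f : ℕ → M) (p n : ℕ) :
    ∑ h ∈ range (p * n), f h = ∑ y ∈ range n, ∑ c ∈ range p, f (p * y + c) := by
  induction n with
  | zero => simp
  | succ n ih => rw [mul_add, mul_one, sum_range_add, ih, sum_range_succ]

/-- `S p e (p n) = ∑_y y^e F(p y)` -/
theorem S_eq {R : Type*} [CommRing R] {p : ℕ} (e : ℕ) {u : R} (hu : u * ((p - 1).factorial : R) = 1)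
    (n : ℕ) : ((X119.BP.S p e (p * n) : ℕ) : R) =
      ∑ y ∈ range n, (y : R) ^ e * F p e u ((p : R) * y) := by
  unfold X119.BP.S
  rw [sum_split, Nat.cast_sum]
  refine sum_congr rfl fun y _ => ?_
  rw [Nat.cast_sum, F, mul_sum]
  refine sum_congr rfl fun c hc => ?_
  have h1 := fact_mul_choose (mem_range.1 hc) y
  have h2 : (((p - 1).factorial : ℤ) : R) * (((p * y + c).choose p : ℤ) : R) =
      ((y : ℤ) : R) * ((P p c ((p : ℤ) * y) : ℤ) : R) := by
    rw [← Int.cast_mul, ← Int.cast_mul, h1]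
  rw [cast_P] at h2
  push_cast at h2
  have h3 : (((p * y + c).choose p : ℕ) : R) = y * (u * P p c ((p : R) * y)) := by
    calc (((p * y + c).choose p : ℕ) : R) = (u * ((p - 1).factorial : R)) * ((p * y + c).choose p : R) := by
          rw [hu, one_mul]
      _ = u * (((p - 1).factorial : R) * ((p * y + c).choose p : R)) := by ring
      _ = _ := by rw [h2]; ring
  rw [Nat.cast_pow, h3]
  ring

/-! ## The value at `0` -/

/-- `b_c = (-1)^c C(p-1,c)` -/
def b (p c : ℕ) : ℤ := (-1) ^ c * ((p - 1).choose c : ℤ)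

theorem b_dvd {p : ℕ} (hp : p.Prime) : ∀ c < p, (p : ℤ) ∣ b p c - 1 := by
  intro c
  induction c with
  | zero => intro _; simp [b]
  | succ c ih =>
    intro hc
    have h1 := ih (by omega)
    have h2 : (p.choose (c + 1) : ℤ) = (p - 1).choose c + (p - 1).choose (c + 1) := by
      obtain ⟨q, rfl⟩ : ∃ q, p = q + 1 := ⟨p - 1, by omega⟩
      rw [Nat.choose_succ_succ, Nat.add_sub_cancel]
      push_cast
      ring
    have h3 : (p : ℤ) ∣ (p.choose (c + 1) : ℤ) := by
      exact_mod_cast hp.dvd_choose_self (by omega) hc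
    have h4 : b p (c + 1) - 1 = (b p c - 1) - (-1) ^ c * (p.choose (c + 1) : ℤ) := by
      rw [h2, b, b, pow_succ]
      ring
    rw [h4]
    exact dvd_sub h1 (Dvd.dvd.mul_left h3 _)

theorem sum_b {p : ℕ} (hp : 1 < p) : ∑ c ∈ range p, b p c = 0 := by
  obtain ⟨q, rfl⟩ : ∃ q, p = q + 1 := ⟨p - 1, by omega⟩
  have h1 := Int.alternating_sum_range_choose (n := q)
  rw [if_neg (by omega)] at h1
  simpa [b] using h1

theorem prod_left (c : ℕ) : ∏ i ∈ range c, ((c : ℤ) - i) = c.factorial := by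
  have h1 := prod_sub c c
  simpa using h1

theorem prod_right (c m : ℕ) : ∏ j ∈ range m, ((c : ℤ) - ((c + 1 + j : ℕ) : ℤ)) = (-1) ^ m * m.factorial := by
  induction m with
  | zero => simp
  | succ m ih =>
    rw [prod_range_succ, ih, Nat.factorial_succ]
    push_cast
    ring

theorem P_zero {p c : ℕ} (hodd : Odd p) (hc : c < p) :
    P p c (0 : ℤ) * b p c = (p - 1).factorial := by
  obtain ⟨m, rfl⟩ : ∃ m, p = (c + 1) + m := ⟨p - (c + 1), by omega⟩
  have h1 : P (c + 1 + m) c (0 : ℤ) = c.factorial * ((-1) ^ m * m.factorial) := by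
    unfold P
    rw [prod_range_add, prod_range_succ, if_pos rfl, mul_one]
    have h2 : ∏ i ∈ range c, (if i = c then (1 : ℤ) else 0 + c - i) = c.factorial := by
      rw [← prod_left]
      refine prod_congr rfl fun i hi => ?_
      rw [mem_range] at hi
      rw [if_neg (by omega)]
      ring
    have h3 : ∏ j ∈ range m, (if c + 1 + j = c then (1 : ℤ) else 0 + c - ((c + 1 + j : ℕ) : ℤ)) =
        (-1) ^ m * m.factorial := by
      rw [← prod_right c m]
      refine prod_congr rfl fun i _ => ?_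
      rw [if_neg (by omega)]
      ring
    rw [h2, h3]
  have h4 : (c + 1 + m - 1).factorial = c.factorial * m.factorial * (c + 1 + m - 1).choose c := by
    have h5 := Nat.choose_mul_factorial_mul_factorial (show c ≤ c + m by omega)
    rw [Nat.add_sub_cancel_left] at h5
    rw [show c + 1 + m - 1 = c + m by omega, ← h5]
    ring
  have h6 : (-1 : ℤ) ^ m * (-1) ^ c = 1 := by
    rw [← pow_add]
    apply Even.neg_one_pow
    obtain ⟨k, hk⟩ := hodd
    exact ⟨k, by omega⟩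
  rw [h1, b, h4]
  push_cast
  linear_combination (c.factorial * m.factorial * (c + 1 + m - 1).choose c : ℤ) * h6

section
variable {R : Type*} [CommRing R] {p : ℕ} {u : R}

theorem eps_mul (hodd : Odd p) (hu : u * ((p - 1).factorial : R) = 1) {c : ℕ} (hc : c < p) :
    (u * P p c (0 : R)) * (b p c : R) = 1 := by
  have h1 := P_zero hodd hc
  have h2 : ((P p c (0 : ℤ) : ℤ) : R) * (b p c : R) = ((p - 1).factorial : R) := by
    rw [← Int.cast_mul, h1, Int.cast_natCast]
  rw [cast_P, Int.cast_zero] at h2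
  rw [mul_assoc, h2, hu]

theorem eps_dvd (hp : p.Prime) (hodd : Odd p) (hu : u * ((p - 1).factorial : R) = 1) {c : ℕ} (hc : c < p) :
    (p : R) ∣ u * P p c (0 : R) - 1 := by
  obtain ⟨t, ht⟩ := b_dvd hp c hc
  have h1 := eps_mul hodd hu hc
  have h2 : (b p c : R) = 1 + p * t := by
    have h3 : b p c = 1 + p * t := by linarith
    rw [h3]; push_cast; ring
  refine ⟨-(t * (u * P p c (0 : R))), ?_⟩
  rw [h2] at h1
  linear_combination h1

theorem F_zero_dvd (hp : p.Prime) (hodd : Odd p) (hu : u * ((p - 1).factorial : R) = 1) (e : ℕ) :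
    (p : R) ∣ F p e u 0 := by
  have h1 : F p e u 0 = ∑ c ∈ range p, ((u * P p c (0 : R)) ^ e - 1) + p := by
    rw [F, sum_sub_distrib, sum_const, card_range, nsmul_eq_mul, mul_one]
    ring
  rw [h1]
  refine dvd_add (dvd_sum fun c hc => ?_) dvd_rfl
  have h2 := sub_dvd_pow_sub_pow (u * P p c (0 : R)) 1 e
  rw [one_pow] at h2
  exact (eps_dvd hp hodd hu (mem_range.1 hc)).trans h2

theorem F_zero_dvd_sq (hp : p.Prime) (hodd : Odd p) (hu : u * ((p - 1).factorial : R) = 1) :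
    (p : R) ^ 2 ∣ F p (2 * p - 1) u 0 := by
  have h1 : F p (2 * p - 1) u 0 =
      ∑ c ∈ range p, (b p c : R) * (((u * P p c (0 : R)) ^ p) ^ 2 - 1) + ((∑ c ∈ range p, b p c : ℤ) : R) := by
    rw [Int.cast_sum, ← sum_add_distrib, F]
    refine sum_congr rfl fun c hc => ?_
    have h2 := eps_mul hodd hu (mem_range.1 hc)
    set x := u * P p c (0 : R)
    have h3 : (x ^ p) ^ 2 = x ^ (2 * p - 1) * x := by
      rw [← pow_mul, ← pow_succ]
      congr 1
      have := hp.two_le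
      omega
    rw [h3]
    linear_combination (-x ^ (2 * p - 1)) * h2
  rw [h1, sum_b hp.one_lt, Int.cast_zero, add_zero]
  refine dvd_sum fun c hc => Dvd.dvd.mul_left ?_ _
  have h4 : (p : R) ^ (1 + 1) ∣ (u * P p c (0 : R)) ^ p ^ 1 - 1 ^ p ^ 1 :=
    dvd_sub_pow_of_dvd_sub (eps_dvd hp hodd hu (mem_range.1 hc)) 1
  rw [pow_one, one_pow] at h4
  have h5 := sub_dvd_pow_sub_pow ((u * P p c (0 : R)) ^ p) 1 2
  rw [one_pow] at h5
  exact (show (p : R) ^ 2 ∣ _ from h4).trans h5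

end

/-! ## Power sums -/

/-- `2 ∑ y^e ≡ e p ∑ y^(e-1)` modulo `p²` -/
theorem two_mul_sum (p e : ℕ) (he : Odd e) (he3 : 3 ≤ e) :
    (p : ℤ) ^ 2 ∣ 2 * ∑ y ∈ range p, (y : ℤ) ^ e - e * p * ∑ y ∈ range p, (y : ℤ) ^ (e - 1) := by
  have h1 : ∑ y ∈ range p, ((p : ℤ) - y) ^ e = ∑ y ∈ range p, (y : ℤ) ^ e + (p : ℤ) ^ e := by
    have h2 : ∑ y ∈ range p, ((p : ℤ) - y) ^ e = ∑ y ∈ range p, ((y + 1 : ℕ) : ℤ) ^ e := by
      rw [← sum_range_reflect (fun y => ((y + 1 : ℕ) : ℤ) ^ e)]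
      refine sum_congr rfl fun y hy => ?_
      rw [mem_range] at hy
      congr 1
      have : p - 1 - y + 1 = p - y := by omega
      rw [this, Nat.cast_sub hy.le]
    rw [h2, ← sum_range_succ (fun y => (y : ℤ) ^ e), sum_range_succ' (fun y => (y : ℤ) ^ e),
      Nat.cast_zero, zero_pow (by omega), add_zero]
  have h3 : ∀ y : ℕ, (p : ℤ) ^ 2 ∣ ((p : ℤ) - y) ^ e + (y : ℤ) ^ e - e * p * (y : ℤ) ^ (e - 1) := by
    intro y
    obtain ⟨k, hk⟩ := Polynomial.powAddExpansion (-(y : ℤ)) (p : ℤ) e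
    have h4 : (-(y : ℤ)) ^ e = -(y : ℤ) ^ e := he.neg_pow _
    have h5 : (-(y : ℤ)) ^ (e - 1) = (y : ℤ) ^ (e - 1) := by
      apply Even.neg_pow
      obtain ⟨m, hm⟩ := he
      exact ⟨m, by omega⟩
    rw [h4, h5] at hk
    refine ⟨k, ?_⟩
    rw [show (p : ℤ) - y = -(y : ℤ) + p by ring, hk]
    ring
  have h6 := dvd_sum fun y (_ : y ∈ range p) => h3 y
  rw [sum_sub_distrib, sum_add_distrib, h1, ← mul_sum] at h6
  have h7 : (p : ℤ) ^ 2 ∣ (p : ℤ) ^ e := pow_dvd_pow _ (by omega)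
  have h8 := dvd_sub h6 h7
  have h9 : 2 * ∑ y ∈ range p, (y : ℤ) ^ e - e * p * ∑ y ∈ range p, (y : ℤ) ^ (e - 1) =
      ∑ y ∈ range p, (y : ℤ) ^ e + (p : ℤ) ^ e + ∑ y ∈ range p, (y : ℤ) ^ e -
        e * p * ∑ y ∈ range p, (y : ℤ) ^ (e - 1) - (p : ℤ) ^ e := by ring
  rw [h9]
  exact h8

theorem sum_odd_dvd {p e : ℕ} (hp : p.Prime) (hodd : Odd p) (he : Odd e) (he3 : 3 ≤ e) :
    (p : ℤ) ∣ ∑ y ∈ range p, (y : ℤ) ^ e := by
  have h1 := two_mul_sum p e he he3
  have h2 : (p : ℤ) ∣ 2 * ∑ y ∈ range p, (y : ℤ) ^ e := by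
    have h3 : (p : ℤ) ∣ e * p * ∑ y ∈ range p, (y : ℤ) ^ (e - 1) := ⟨e * ∑ y ∈ range p, (y : ℤ) ^ (e - 1), by ring⟩
    have h4 := dvd_add ((dvd_pow_self (p : ℤ) two_ne_zero).trans h1) h3
    rwa [sub_add_cancel] at h4
  have h5 : IsCoprime (p : ℤ) 2 := by
    have := (Nat.coprime_primes hp Nat.prime_two).2 (by rintro rfl; exact absurd hodd (by decide))
    exact_mod_cast Nat.isCoprime_iff_coprime.2 this
  exact h5.dvd_of_dvd_mul_left h2

theorem sum_range_zmod (p : ℕ) [NeZero p] (k : ℕ) :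
    ∑ y ∈ range p, ((y : ℕ) : ZMod p) ^ k = ∑ x : ZMod p, x ^ k := by
  refine sum_nbij' (fun y => (y : ZMod p)) (fun x => x.val) (fun _ _ => mem_univ _)
    (fun x _ => mem_range.2 (ZMod.val_lt x)) (fun y hy => ZMod.val_cast_of_lt (mem_range.1 hy))
    (fun x _ => ZMod.natCast_zmod_val x) fun _ _ => rfl

theorem sum_even_dvd {p k : ℕ} (hp : p.Prime) (h1 : p - 1 < k) (h2 : k < 2 * p - 2) :
    (p : ℤ) ∣ ∑ y ∈ range p, (y : ℤ) ^ k := by
  have : Fact p.Prime := ⟨hp⟩
  rw [← ZMod.intCast_zmod_eq_zero_iff_dvd]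
  push_cast
  rw [sum_range_zmod]
  have h3 : ∀ x : ZMod p, x ^ k = x ^ (k - (p - 1)) := by
    intro x
    rcases eq_or_ne x 0 with rfl | hx
    · rw [zero_pow (by omega), zero_pow (by omega)]
    · conv_lhs => rw [show k = (p - 1) + (k - (p - 1)) by omega, pow_add, ZMod.pow_card_sub_one_eq_one hx,
        one_mul]
  rw [sum_congr rfl fun x _ => h3 x]
  apply FiniteField.sum_pow_lt_card_sub_one
  rw [ZMod.card]
  omega

theorem sum_dvd_sq {p e : ℕ} (hp : p.Prime) (hodd : Odd p) (he : Odd e) (hpe : p ≤ e) (h2 : e < 2 * p - 1) :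
    (p : ℤ) ^ 2 ∣ ∑ y ∈ range p, (y : ℤ) ^ e := by
  have hp3 : 3 ≤ p := by
    have := hp.two_le
    obtain ⟨k, hk⟩ := hodd
    omega
  have h1 := two_mul_sum p e he (by omega)
  have h3 : (p : ℤ) ^ 2 ∣ e * p * ∑ y ∈ range p, (y : ℤ) ^ (e - 1) := by
    rcases eq_or_lt_of_le hpe with h | h
    · exact ⟨∑ y ∈ range p, (y : ℤ) ^ (e - 1), by rw [← h]; ring⟩
    · obtain ⟨t, ht⟩ := sum_even_dvd (k := e - 1) hp (by omega) (by omega)
      exact ⟨e * t, by rw [ht]; ring⟩
  have h4 := dvd_add h1 h3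
  rw [sub_add_cancel] at h4
  have h5 : IsCoprime ((p : ℤ) ^ 2) 2 := by
    have := (Nat.coprime_primes hp Nat.prime_two).2 (by omega)
    apply IsCoprime.pow_left
    exact_mod_cast Nat.isCoprime_iff_coprime.2 this
  exact h5.dvd_of_dvd_mul_left h4

/-- **F2** -/
theorem t_F2 : X119.BP.S_F2 := by
  intro p e hp hodd he hpe he2
  have hp3 : 3 ≤ p := by
    have := hp.two_le
    obtain ⟨k, hk⟩ := hodd
    omega
  have hfac : ((p - 1).factorial).Coprime (p ^ 3) := by
    apply Nat.Coprime.pow_right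
    rw [Nat.coprime_comm, hp.coprime_iff_not_dvd, hp.dvd_factorial]
    omega
  have htwo : (2 : ℕ).Coprime (p ^ 3) := by
    apply Nat.Coprime.pow_right
    exact (Nat.coprime_primes Nat.prime_two hp).2 (by omega)
  obtain ⟨v, hv⟩ := (ZMod.isUnit_iff_coprime ((p - 1).factorial) (p ^ 3)).2 hfac
  obtain ⟨w, hw⟩ := (ZMod.isUnit_iff_coprime 2 (p ^ 3)).2 htwo
  set u : ZMod (p ^ 3) := ((v⁻¹ : (ZMod (p ^ 3))ˣ) : ZMod (p ^ 3)) with hu'
  have hu : u * ((p - 1).factorial : ZMod (p ^ 3)) = 1 := by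
    rw [← hv, hu', Units.inv_mul]
  have hp0 : (p : ZMod (p ^ 3)) ^ 3 = 0 := by
    have := ZMod.natCast_self (p ^ 3)
    exact_mod_cast this
  obtain ⟨D, a₂, a₁, hF⟩ := F_expand p e u
  have ha₁ : a₁ * (p : ZMod (p ^ 3)) = 0 := by
    have h1 := F_neg hodd e u (p : ZMod (p ^ 3))
    rw [hF, hF (p : ZMod (p ^ 3))] at h1
    have h2 : (-(p : ZMod (p ^ 3))) ^ 3 = 0 := by
      rw [Odd.neg_pow (by decide), hp0, neg_zero]
    rw [h2, hp0] at h1
    have h3 : ((w : (ZMod (p ^ 3))ˣ) : ZMod (p ^ 3)) * (a₁ * (p : ZMod (p ^ 3))) = 0 := by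
      rw [hw]
      push_cast
      linear_combination -h1
    rwa [Units.mul_right_eq_zero] at h3
  have h0 : ((X119.BP.S p e (p ^ 2) : ℕ) : ZMod (p ^ 3)) = 0 := by
    rw [sq, S_eq e hu p]
    have h1 : ∀ y ∈ range p, (y : ZMod (p ^ 3)) ^ e * F p e u ((p : ZMod (p ^ 3)) * y) =
        a₂ * (p : ZMod (p ^ 3)) ^ 2 * ((((y : ℤ) ^ (e + 2) : ℤ)) : ZMod (p ^ 3)) +
          F p e u 0 * (((y : ℤ) ^ e : ℤ) : ZMod (p ^ 3)) := by
      intro y _
      rw [hF]
      push_cast
      linear_combination ((y : ZMod (p ^ 3)) ^ e * (D (p * y) * y ^ 3)) * hp0 +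
        ((y : ZMod (p ^ 3)) ^ e * y) * ha₁
    rw [sum_congr rfl h1, sum_add_distrib, ← mul_sum, ← mul_sum, ← Int.cast_sum, ← Int.cast_sum]
    have h2 : a₂ * (p : ZMod (p ^ 3)) ^ 2 * ((∑ y ∈ range p, (y : ℤ) ^ (e + 2) : ℤ) : ZMod (p ^ 3)) = 0 := by
      obtain ⟨t, ht⟩ := sum_odd_dvd (e := e + 2) hp hodd (by
        obtain ⟨k, hk⟩ := he
        exact ⟨k + 1, by omega⟩) (by omega)
      rw [ht]
      push_cast
      linear_combination (a₂ * t) * hp0
    have h3 : F p e u 0 * ((∑ y ∈ range p, (y : ℤ) ^ e : ℤ) : ZMod (p ^ 3)) = 0 := by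
      rcases Nat.lt_or_ge e (2 * p - 1) with h | h
      · obtain ⟨t, ht⟩ := sum_dvd_sq hp hodd he hpe h
        obtain ⟨s, hs⟩ := F_zero_dvd (R := ZMod (p ^ 3)) hp hodd hu e
        rw [ht, hs]
        push_cast
        linear_combination (s * t) * hp0
      · have h4 : e = 2 * p - 1 := by omega
        subst h4
        obtain ⟨t, ht⟩ := sum_odd_dvd hp hodd he (by omega)
        obtain ⟨s, hs⟩ := F_zero_dvd_sq (R := ZMod (p ^ 3)) hp hodd hu
        rw [ht, hs]
        push_cast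
        linear_combination (s * t) * hp0
    rw [h2, h3, add_zero]
  exact (ZMod.natCast_eq_zero_iff _ _).1 h0

end Pool.Agent.X295.BP
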